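import Pool.Agent.D0H85.SQ.Data

/-!
Germs over a number field and over its algebraic closure.
-/

set_option autoImplicit false
set_option linter.unusedSectionVars false

namespace Pool.Agent.D0H85.SQ

open NumberField IsDedekindDomain Height Filter Topology
open Pool.Agent.K1H83.VN Pool.Agent.D0H85.SP

section gen

variable {k : Type} [Field k] {σ : Sc}

/-- values of polynomials at germs -/
theorem eval_gm' {ι : Type} (x : ι → ℕ → k) (g : MvPolynomial ι k) :
    g.eval₂ (algebraMap k (G k σ)) (fun i => gm σ (x i)) =
      gm σ (fun t => MvPolynomial.eval (fun i => x i t) g) := by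
  have h1 : (fun t => MvPolynomial.eval (fun i => x i t) g) =
      g.eval₂ (Pi.constRingHom ℕ k) x := by
    funext t
    have h2 := MvPolynomial.hom_eval₂ g (Pi.constRingHom ℕ k) (Pi.evalRingHom (fun _ => k) t) x
    have h3 : (Pi.evalRingHom (fun _ : ℕ => k) t) (g.eval₂ (Pi.constRingHom ℕ k) x) =
        g.eval₂ (Pi.constRingHom ℕ k) x t := rfl
    rw [← h3, h2]
    rfl
  rw [h1]
  have h4 := MvPolynomial.hom_eval₂ g (Pi.constRingHom ℕ k) (gm σ) x
  rw [h4]
  rfl

end gen

section kap

variable {L k : Type} [Field L] [Field k] {σ : Sc}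

/-- the map on germs -/
noncomputable def kap (σ : Sc) (ι : L →+* k) : G L σ →+* G k σ where
  toFun g := gm σ fun t => ι (rep g t)
  map_one' := by
    have h1 : (1 : G k σ) = gm σ 1 := (map_one (gm σ)).symm
    rw [h1, gm_eq]
    filter_upwards [rep_one (k := L) (σ := σ)] with t ht
    rw [ht, map_one]
    rfl
  map_mul' a b := by
    rw [← map_mul, gm_eq]
    filter_upwards [rep_mul a b] with t ht
    rw [ht, map_mul]
    rfl
  map_zero' := by
    have h1 : (0 : G k σ) = gm σ 0 := (map_zero (gm σ)).symm
    rw [h1, gm_eq]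
    filter_upwards [rep_zero (k := L) (σ := σ)] with t ht
    rw [ht, map_zero]
    rfl
  map_add' a b := by
    rw [← map_add, gm_eq]
    filter_upwards [rep_add a b] with t ht
    rw [ht, map_add]
    rfl

theorem kap_gm (ι : L →+* k) (f : ℕ → L) : kap σ ι (gm σ f) = gm σ fun t => ι (f t) := by
  show gm σ (fun t => ι (rep (gm σ f) t)) = _
  rw [gm_eq]
  filter_upwards [rep_gm (σ := σ) f] with t ht
  rw [ht]

theorem kap_alg (ι : L →+* k) (c : L) :
    kap σ ι (algebraMap L (G L σ) c) = algebraMap k (G k σ) (ι c) := by
  rw [alg_eq, kap_gm, alg_eq]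

end kap

section expand

variable {L k : Type} [Field L] [Field k] [Algebra L k]

/-- forms over an extension as combinations of forms over the field -/
theorem exists_expand {τ : Type} (H : MvPolynomial τ k) (e : ℕ) (hH : H.IsHomogeneous e) :
    ∃ (J : Type) (_ : Fintype J) (b : J → k) (Hb : J → MvPolynomial τ L),
      LinearIndependent L b ∧ (∀ j, (Hb j).IsHomogeneous e) ∧
      H = ∑ j, MvPolynomial.C (b j) * MvPolynomial.map (algebraMap L k) (Hb j) := by
  classical
  let B := Module.Basis.ofVectorSpace L k
  let J : Finset (Module.Basis.ofVectorSpaceIndex L k) :=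
    H.support.biUnion fun α => (B.repr (H.coeff α)).support
  refine ⟨J, inferInstance, fun j => B j, fun j => ∑ α ∈ H.support,
    MvPolynomial.monomial α (B.repr (H.coeff α) j), ?_, ?_, ?_⟩
  · exact B.linearIndependent.comp _ Subtype.val_injective
  · intro j
    refine MvPolynomial.IsHomogeneous.sum _ _ _ fun α hα => ?_
    apply MvPolynomial.isHomogeneous_monomial
    have h1 := hH (MvPolynomial.mem_support_iff.1 hα)
    rw [← h1, Finsupp.degree_eq_weight_one]
    rfl
  · conv_lhs => rw [MvPolynomial.as_sum H]
    simp only [map_sum, MvPolynomial.map_monomial, Finset.mul_sum, MvPolynomial.C_mul_monomial]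
    rw [Finset.sum_comm]
    refine Finset.sum_congr rfl fun α hα => ?_
    rw [← map_sum]
    congr 1
    have h1 : ∑ j ∈ J, B.repr (H.coeff α) j • B j = H.coeff α := by
      conv_rhs => rw [← B.linearCombination_repr (H.coeff α), Finsupp.linearCombination_apply,
        Finsupp.sum]
      symm
      apply Finset.sum_subset
      · intro j hj
        exact Finset.mem_biUnion.2 ⟨α, hα, hj⟩
      · intro j _ hj
        rw [Finsupp.notMem_support_iff.1 hj, zero_smul]
    rw [← Finset.sum_coe_sort] at h1
    refine h1.symm.trans ?_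
    refine Finset.sum_congr rfl fun j _ => ?_
    rw [Algebra.smul_def, mul_comm]

end expand

end Pool.Agent.D0H85.SQ
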