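import Pool.Agent.D0H85.SQ.Desc
import Pool.Agent.D0H85.SQ.Germ

/-!
Sparse points on varieties of log general type are not dense.
-/

set_option autoImplicit false
set_option linter.unusedSectionVars false

namespace Pool.Agent.D0H85.SQ

open NumberField IsDedekindDomain Height Filter Topology
open Pool.Agent.K1H83.VN Pool.Agent.D0H85.SP FF
open Pool.Agent.W602.GT (coords LogGeneralType IsForm)

theorem countable_closure (K : Type) [Field K] [NumberField K] : Countable (AlgebraicClosure K) := by
  have h0 : Algebra.IsAlgebraic ℚ (AlgebraicClosure K) := Algebra.IsAlgebraic.trans ℚ K _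
  rw [← Cardinal.mk_le_aleph0_iff]
  have h := Algebra.IsAlgebraic.cardinalMk_le_max ℚ (AlgebraicClosure K)
  simpa using h

theorem Th_one {F : Type} [Field F] {s : ℕ} (l : Fin s → ℕ) {M : Type} [CommRing M]
    (ρ : MvPolynomial (Fin s) F →+* M) (q : MvPolynomial (Fin s) F) :
    (Th l q).eval₂ ρ 1 = ρ q := by
  have h1 : (Polynomial.eval₂RingHom ρ 1).comp (Th l) = ρ := by
    apply MvPolynomial.ringHom_ext
    · intro z
      show (Th l (MvPolynomial.C z)).eval₂ ρ 1 = _
      rw [Th_C, Polynomial.eval₂_C]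
    · intro i
      show (Th l (MvPolynomial.X i)).eval₂ ρ 1 = _
      rw [Th_X]
      simp
  exact RingHom.congr_fun h1 q

/-- The variety with generic point `y`, without the common zeros of the forms `F j`, is covered by a
family of nonconstant images of the punctured line: there are polynomials `W 0, …, W n` over some
extension `M` of `k` such that `(W 0 : … : W n)` is a generic point of the variety, not constant, and
such that for every `t ≠ 0` some form `F j` does not vanish at `(W 0 (t) : … : W n (t))`. -/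
def Covered {k : Type} [Field k] {n w : ℕ} (F : Fin w → MvPolynomial (Fin (n + 1)) k) {E : Type}
    [Field E] [Algebra k E] (y : Fin (n + 1) → E) : Prop :=
  ∃ (M : Type) (_ : Field M) (_ : Algebra k M) (W : Fin (n + 1) → Polynomial M),
    (∀ g : MvPolynomial (Fin (n + 1)) k, (∃ e, g.IsHomogeneous e) →
      (MvPolynomial.aeval y g = 0 ↔ (MvPolynomial.aeval W g : Polynomial M) = 0)) ∧
    (∀ t : AlgebraicClosure M, t ≠ 0 →
      ∃ j, Polynomial.aeval t (MvPolynomial.aeval W (F j) : Polynomial M) ≠ 0) ∧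
    ∃ i j, W i * Polynomial.C ((W j).eval 1) ≠ W j * Polynomial.C ((W i).eval 1)

theorem not_covered {k E : Type} [Field k] [CharZero k] [Field E] [Algebra k E] {n w p : ℕ}
    (F : Fin w → MvPolynomial (Fin (n + 1)) k) (d : Fin w → ℕ) (hF : ∀ j, (F j).IsHomogeneous (d j))
    (hdim : Algebra.trdeg k E = p) {y : Fin (n + 1) → E} (hy : y ≠ 0) (hgen : coords k y = ⊤)
    (hlgt : LogGeneralType k E p (NoCentre F d y)) : ¬ Covered F y := by
  rintro ⟨M, _, _, W, hrel, hbd, hnc⟩
  exact not_lgt_fam' hdim hy hgen F d hF W hrel (exists_comb _ hbd) hnc hlgt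

/-- **Sparse points on varieties which are not covered by punctured lines.** -/
theorem dens_core {k : Type} [Field k] [CharZero k] [Countable k] {L : Type} [Field L]
    [NumberField L] (ι : L →+* k) {n w : ℕ} (N : ℕ) (S : Set (HeightOneSpectrum (𝓞 L)))
    (hS : S.Finite) (F : Fin w → MvPolynomial (Fin (n + 1)) L) (d : Fin w → ℕ)
    (hF : ∀ j, (F j).IsHomogeneous (d j)) {E : Type} [Field E] [Algebra k E]
    {y : Fin (n + 1) → E} (hcov : ¬ Covered (fun j => MvPolynomial.map ι (F j)) y) :
    ∃ (H : MvPolynomial (Fin (n + 1)) k) (e : ℕ), H.IsHomogeneous e ∧ MvPolynomial.aeval y H ≠ 0 ∧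
      ∃ C : ℝ, ∀ T : ℝ, 0 ≤ T → ∀ x : Fin (n + 1) → L, x ≠ 0 →
        (∃ j, MvPolynomial.eval x (F j) ≠ 0) → (∀ i, Sparse S N T (x i)) →
        gcdHeight S (fun j => MvPolynomial.eval x (F j)) ≤ T →
        (∀ g : MvPolynomial (Fin (n + 1)) k, IsForm g → MvPolynomial.aeval y g = 0 →
          MvPolynomial.eval (fun i => ι (x i)) g = 0) →
        MvPolynomial.eval (fun i => ι (x i)) H ≠ 0 → logHeight x ≤ C * (1 + T) := by
  classical
  by_contra hcon
  push Not at hcon
  -- the forms which do not vanish on the variety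
  let Fm := {H : MvPolynomial (Fin (n + 1)) k // (∃ e, H.IsHomogeneous e) ∧
    MvPolynomial.aeval y H ≠ 0}
  have hcF : Countable (MvPolynomial (Fin (n + 1)) k) := by
    rw [← Cardinal.mk_le_aleph0_iff]
    refine (MvPolynomial.cardinalMk_le_max (σ := Fin (n + 1)) (R := k)).trans ?_
    simp
  have hne : Nonempty Fm := ⟨⟨1, ⟨0, MvPolynomial.isHomogeneous_one _ _⟩, by
    rw [map_one]; exact one_ne_zero⟩⟩
  obtain ⟨f, hf⟩ := exists_surjective_nat Fm
  choose ef hef using fun m => (f m).2.1
  let Hm : ℕ → MvPolynomial (Fin (n + 1)) k := fun m => ∏ i ∈ Finset.range (m + 1), (f i).1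
  have hHm : ∀ m, (Hm m).IsHomogeneous (∑ i ∈ Finset.range (m + 1), ef i) := fun m =>
    MvPolynomial.IsHomogeneous.prod _ _ _ fun i _ => hef i
  have hHy : ∀ m, MvPolynomial.aeval y (Hm m) ≠ 0 := by
    intro m
    rw [map_prod]
    exact Finset.prod_ne_zero_iff.2 fun i _ => (f i).2.2
  choose T hT x hx0 hFx hsp hgcd hV hHx hlt using fun t : ℕ =>
    hcon (Hm t) _ (hHm t) (hHy t) (t : ℝ)
  choose a u ha hu hxs using hsp
  set S' := plS S hS with hS'
  have hLlim : Tendsto (fun t => logHeight (x t)) (hyperfilter ℕ : Filter ℕ) atTop := by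
    refine Tendsto.mono_left ?_ Nat.hyperfilter_le_atTop
    refine tendsto_atTop_mono (fun t => ?_) tendsto_natCast_atTop_atTop
    have h1 := hlt t
    have h2 : 0 ≤ (t : ℝ) * T t := mul_nonneg (Nat.cast_nonneg t) (hT t)
    rw [mul_add, mul_one] at h1
    linarith
  let σ : Sc := ⟨hyperfilter ℕ, fun t => logHeight (x t), hLlim⟩
  have hTs : Sm σ T := by
    intro ε hε
    have h1 : ∀ᶠ t : ℕ in (hyperfilter ℕ : Filter ℕ), 1 / ε ≤ (t : ℝ) :=
      Nat.hyperfilter_le_atTop (tendsto_natCast_atTop_atTop.eventually_ge_atTop _)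
    have h2 : ∀ᶠ t : ℕ in (hyperfilter ℕ : Filter ℕ), T t ≤ ε * logHeight (x t) := by
      filter_upwards [h1] with t ht
      have h3 := hlt t
      have h4 : 1 / ε * T t ≤ (t : ℝ) * (1 + T t) := by
        have := hT t
        have h5 : 1 / ε * T t ≤ (t : ℝ) * T t := mul_le_mul_of_nonneg_right ht this
        have h6 : (0 : ℝ) ≤ t := Nat.cast_nonneg t
        nlinarith
      have h5 : 1 / ε * T t ≤ logHeight (x t) := h4.trans h3.le
      rw [one_div, inv_mul_le_iff₀ hε] at h5
      exact h5
    exact h2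
  obtain ⟨s, e, E0, φ, l, hE0, hφ, hinj, hbd, hnc⟩ := core_data (k := L) (σ := σ) (S := S')
    (fun w => inl_mem S hS w) (n := n) (N := N) (w := w) F (fun j => ⟨d j, hF j⟩)
    (fun i t => x t i) (fun i j t => a t i j) (fun i j t => (u t i j : L))
    (fun i t => hxs t i) (fun i j t => isSU_of_unit S hS _ (hu t i j))
    (fun i j => hTs.mono (Eventually.of_forall fun t => ha t i j)) (fun t => rfl) hFx
    (by
      refine hTs.mono (Eventually.of_forall fun t => ?_)
      have h1 := hgcd t
      rw [ho_eq S hS] at h1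
      exact h1)
  -- the family over the germs
  let ρ : MvPolynomial (Fin s) (FF L σ) →+* G k σ := (kap σ ι).comp (evg e)
  have hρ : Function.Injective ρ := (kap σ ι).injective.comp hinj
  let W : Fin (n + 1) → Polynomial (G k σ) := fun i => (Th l (φ i)).map ρ
  let Ψ : MvPolynomial (Fin s) (FF L σ) →+* Polynomial (G k σ) :=
    (Polynomial.mapRingHom ρ).comp (Th l)
  have hΨW : ∀ i, Ψ (φ i) = W i := fun i => rfl
  have hΨ0 : Ψ.comp (κ0 L σ s) = (algebraMap k (Polynomial (G k σ))).comp ι := by
    refine RingHom.ext fun z => ?_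
    show (Th l (MvPolynomial.C (algebraMap L (FF L σ) z))).map ρ = _
    rw [Th_C, Polynomial.map_C]
    show Polynomial.C (kap σ ι (evg e (MvPolynomial.C (algebraMap L (FF L σ) z)))) = _
    rw [evg_C, coe_alg, kap_alg]
    rfl
  have hΨ : ∀ g : MvPolynomial (Fin (n + 1)) L,
      (MvPolynomial.aeval W (MvPolynomial.map ι g) : Polynomial (G k σ)) =
        Ψ (g.eval₂ (κ0 L σ s) φ) := by
    intro g
    rw [MvPolynomial.hom_eval₂, hΨ0, MvPolynomial.aeval_def, MvPolynomial.eval₂_map]
    rfl
  have hW1 : ∀ i, (W i).eval 1 = kap σ ι E0 * gm σ (fun t => ι (x t i)) := by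
    intro i
    show ((Th l (φ i)).map ρ).eval 1 = _
    rw [Polynomial.eval_map, Th_one]
    show kap σ ι (evg e (φ i)) = _
    rw [hφ, map_mul, kap_gm]
  have hκE : kap σ ι E0 ≠ 0 := by rwa [Ne, map_eq_zero]
  have hrel : ∀ H : MvPolynomial (Fin (n + 1)) k, IsForm H →
      (Pool.Agent.W602.GT.val y H = 0 ↔ (MvPolynomial.aeval W H : Polynomial (G k σ)) = 0) := by
    rintro H ⟨eH, hH⟩
    constructor
    · intro h0
      let _ : Algebra L k := ι.toAlgebra
      obtain ⟨J, _, b, Hb, hli, hhom, hsum⟩ := exists_expand (L := L) H eH hH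
      have h1 : ∀ t j, MvPolynomial.eval (x t) (Hb j) = 0 := by
        intro t
        have h2 := hV t H ⟨eH, hH⟩ h0
        rw [hsum, map_sum] at h2
        have h3 : ∑ j, MvPolynomial.eval (x t) (Hb j) • b j = 0 := by
          refine Eq.trans (Finset.sum_congr rfl fun j _ => ?_) h2
          rw [Algebra.smul_def, map_mul, MvPolynomial.eval_C, MvPolynomial.eval_map, mul_comm]
          congr 1
          have h4 := MvPolynomial.eval₂_comp_left (algebraMap L k) (RingHom.id L) (x t) (Hb j)
          rw [RingHom.comp_id] at h4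
          rw [← MvPolynomial.eval₂_id, h4]
          rfl
        exact Fintype.linearIndependent_iff.1 hli _ h3
      rw [hsum, map_sum]
      refine Finset.sum_eq_zero fun j _ => ?_
      have h2 : (Hb j).eval₂ (κ0 L σ s) φ = 0 := by
        apply hinj
        rw [map_zero, evg_κ0 e φ E0 (fun i t => x t i) hφ _ eH (hhom j)]
        have h3 : (fun t => MvPolynomial.eval (fun i => x t i) (Hb j)) = 0 := by
          funext t
          exact h1 t j
        rw [h3, map_zero, mul_zero]
      have h3 := hΨ (Hb j)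
      rw [h2, map_zero] at h3
      rw [map_mul]
      refine mul_eq_zero_of_right _ ?_
      exact h3
    · intro h0
      by_contra hy0
      obtain ⟨m0, hm0⟩ := hf ⟨H, ⟨eH, hH⟩, hy0⟩
      have h1 : MvPolynomial.eval₂ (algebraMap k (G k σ)) (fun i => (W i).eval 1) H = 0 := by
        have h2 := congrArg (Polynomial.eval 1) h0
        rw [Polynomial.eval_zero, ← Polynomial.coe_evalRingHom, MvPolynomial.aeval_def,
          MvPolynomial.hom_eval₂] at h2
        refine Eq.trans ?_ h2
        congr 1
        refine RingHom.ext fun z => ?_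
        rw [RingHom.comp_apply, Polynomial.coe_evalRingHom, Polynomial.algebraMap_apply,
          Polynomial.eval_C]
      have h2 : (fun i => (W i).eval 1) = fun i => kap σ ι E0 * gm σ (fun t => ι (x t i)) :=
        funext hW1
      rw [h2, eval₂_smul _ H eH hH, eval_gm'] at h1
      have h3 := (mul_eq_zero.1 h1).resolve_left (pow_ne_zero _ hκE)
      have h4 : ∀ᶠ t in (σ.𝒰 : Filter ℕ), MvPolynomial.eval (fun i => ι (x t i)) H = 0 := by
        rw [← gm_eq (g := fun _ => 0)]
        refine h3.trans ?_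
        exact (map_zero (gm σ)).symm
      have h5 : ∀ᶠ t : ℕ in (σ.𝒰 : Filter ℕ), m0 ≤ t :=
        Nat.hyperfilter_le_atTop (eventually_ge_atTop m0)
      obtain ⟨t, h6, h7⟩ := (h4.and h5).exists
      apply hHx t
      show MvPolynomial.eval (fun i => ι (x t i)) (∏ i ∈ Finset.range (t + 1), (f i).1) = 0
      rw [map_prod]
      refine Finset.prod_eq_zero (Finset.mem_range.2 (Nat.lt_succ_of_le h7)) ?_
      rw [hm0]
      exact h6
  refine hcov ⟨G k σ, inferInstance, inferInstance, W, hrel, ?_, ?_⟩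
  · intro t ht
    let ρ' : MvPolynomial (Fin s) (FF L σ) →+* AlgebraicClosure (G k σ) :=
      (algebraMap (G k σ) (AlgebraicClosure (G k σ))).comp ρ
    have hρ' : Function.Injective ρ' := (algebraMap (G k σ) _).injective.comp hρ
    obtain ⟨j, hj⟩ := hbd _ ρ' hρ' t ht
    refine ⟨j, ?_⟩
    rw [hΨ]
    show Polynomial.aeval t ((Th l ((F j).eval₂ (κ0 L σ s) φ)).map ρ) ≠ 0
    rw [Polynomial.aeval_def, Polynomial.eval₂_map]
    exact hj
  · by_contra hno
    push Not at hno
    apply hnc
    intro i j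
    apply Polynomial.map_injective ρ hρ
    rw [Polynomial.map_mul, Polynomial.map_mul, Polynomial.map_C, Polynomial.map_C]
    have h1 := hno i j
    have h2 : ∀ i, (W i).eval 1 = ρ (φ i) := by
      intro i
      show ((Th l (φ i)).map ρ).eval 1 = _
      rw [Polynomial.eval_map, Th_one]
    rw [h2, h2] at h1
    exact h1

end Pool.Agent.D0H85.SQ
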