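import Pool.Agent.D0H85.SP.Fin1

/-!
Sparse points and families of curves: the family over the field of germs.
-/

set_option autoImplicit false
set_option linter.unusedSectionVars false

namespace Pool.Agent.D0H85.SQ

open NumberField IsDedekindDomain Height Filter Topology
open Pool.Agent.W180.OP (Pl av wt fv fv_support_finite wt_nonneg)
open Pool.Agent.K1H83.VN Pool.Agent.D0H85.SP

variable {k : Type} [Field k] [NumberField k] {σ : Sc} {S : Finset (Pl k)}

/-- the constants -/
noncomputable def κ0 (k : Type) [Field k] [NumberField k] (σ : Sc) (s : ℕ) :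
    k →+* MvPolynomial (Fin s) (FF k σ) := MvPolynomial.C.comp (algebraMap k (FF k σ))

theorem evg_κ0 {s : ℕ} (e : Fin s → G k σ) {n : ℕ} (φ : Fin (n + 1) → MvPolynomial (Fin s) (FF k σ))
    (E0 : G k σ) (x : Fin (n + 1) → ℕ → k) (hφ : ∀ i, evg e (φ i) = E0 * gm σ (x i))
    (g : MvPolynomial (Fin (n + 1)) k) (d : ℕ) (hg : g.IsHomogeneous d) :
    evg e (g.eval₂ (κ0 k σ s) φ) = E0 ^ d * gm σ (fun t => g.eval (fun i => x i t)) := by
  rw [MvPolynomial.hom_eval₂]
  have h1 : (evg e).comp (κ0 k σ s) = algebraMap k (G k σ) := by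
    refine RingHom.ext fun z => ?_
    show evg e (MvPolynomial.C (algebraMap k (FF k σ) z)) = _
    rw [evg_C]
    rfl
  have h2 : (fun i => (evg e) (φ i)) = fun i => E0 * gm σ (x i) := by
    funext i
    exact hφ i
  rw [h1, h2, eval₂_smul _ g d hg, eval_gm]

/-- **The family of curves.** -/
theorem core_data (hS : ∀ w : InfinitePlace k, Sum.inl w ∈ S) {n N w : ℕ}
    (F : Fin w → MvPolynomial (Fin (n + 1)) k) (hF : ∀ j, ∃ d, (F j).IsHomogeneous d)
    (x : Fin (n + 1) → ℕ → k) (a u : Fin (n + 1) → Fin N → ℕ → k)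
    (hx : ∀ i t, x i t = ∑ j, a i j t * u i j t) (hu : ∀ i j t, IsSU S (u i j t))
    (ha : ∀ i j, Sm σ fun t => logHeight₁ (a i j t))
    (hL : ∀ t, σ.L t = logHeight fun i => x i t)
    (hFx : ∀ t, ∃ j, (F j).eval (fun i => x i t) ≠ 0)
    (hFs : Sm σ fun t => -ho S fun j => (F j).eval (fun i => x i t)) :
    ∃ (s : ℕ) (e : Fin s → G k σ) (E0 : G k σ)
      (φ : Fin (n + 1) → MvPolynomial (Fin s) (FF k σ)) (l : Fin s → ℕ),
      E0 ≠ 0 ∧ (∀ i, evg e (φ i) = E0 * gm σ (x i)) ∧ Function.Injective (evg e) ∧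
      (∀ (L : Type) [Field L] (ρ : MvPolynomial (Fin s) (FF k σ) →+* L), Function.Injective ρ →
        ∀ t : L, t ≠ 0 → ∃ j, (Th l ((F j).eval₂ (κ0 k σ s) φ)).eval₂ ρ t ≠ 0) ∧
      ¬ ∀ i j, Th l (φ i) * Polynomial.C (φ j) = Th l (φ j) * Polynomial.C (φ i) := by
  classical
  -- the germs
  let X : Fin (n + 1) → G k σ := fun i => gm σ (x i)
  let A : Fin (n + 1) → Fin N → FF k σ := fun i j => ⟨gm σ (a i j), (gm_mem_FF _).2 (ha i j)⟩
  let U : Fin (n + 1) × Fin N → G k σ := fun p => gm σ (u p.1 p.2)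
  have hUS : ∀ p, SU S (U p) := by
    intro p
    filter_upwards [rep_gm (σ := σ) (u p.1 p.2)] with t ht
    show IsSU S (rep (gm σ (u p.1 p.2)) t)
    rw [ht]
    exact hu _ _ _
  have hU0 : ∀ p, U p ≠ 0 := fun p => (hUS p).ne_zero
  have hXs : ∀ i, X i = ∑ j, (A i j : G k σ) * U (i, j) := by
    intro i
    have h1 : x i = ∑ j, a i j * u i j := by
      funext t
      rw [Finset.sum_apply]
      exact hx i t
    show gm σ (x i) = ∑ j, gm σ (a i j) * gm σ (u i j)
    rw [h1, map_sum]
    exact Finset.sum_congr rfl fun j _ => map_mul _ _ _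
  -- a basis of the units
  obtain ⟨s, b, m, hind, hm⟩ := exists_basis U hU0 (FF k σ) fun x n hn h => root_mem x n hn h
  set e : Fin s → G k σ := fun i => pw U (b i) with he
  have heS : ∀ i, SU S (e i) := fun i => SU.prod _ _ fun j _ => (hUS j).zpow _
  have he0 : ∀ i, e i ≠ 0 := fun i => (heS i).ne_zero
  obtain ⟨M, hM⟩ : ∃ M : ℕ, ∀ p i, 0 ≤ m p i + M := by
    refine ⟨∑ p, ∑ i, (m p i).natAbs, fun p i => ?_⟩
    have h1 : (m p i).natAbs ≤ ∑ i, (m p i).natAbs :=
      Finset.single_le_sum (f := fun i => (m p i).natAbs) (fun _ _ => Nat.zero_le _)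
        (Finset.mem_univ i)
    have h2 : ∑ i, (m p i).natAbs ≤ ∑ p, ∑ i, (m p i).natAbs :=
      Finset.single_le_sum (f := fun p => ∑ i, (m p i).natAbs) (fun _ _ => Nat.zero_le _)
        (Finset.mem_univ p)
    have h3 : -(m p i) ≤ ((m p i).natAbs : ℤ) := by omega
    have h4 : ((m p i).natAbs : ℤ) ≤ ((∑ p, ∑ i, (m p i).natAbs : ℕ) : ℤ) := by
      exact_mod_cast h1.trans h2
    omega
  set E0 : G k σ := ∏ i, e i ^ M with hE0
  have hE0S : SU S E0 := SU.prod _ _ fun i _ => (heS i).pow _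
  have hE00 : E0 ≠ 0 := hE0S.ne_zero
  let c : Fin (n + 1) × Fin N → FF k σ := fun p => ⟨U p / ∏ i, e i ^ m p i, hm p⟩
  let m' : Fin (n + 1) × Fin N → Fin s →₀ ℕ := fun p =>
    Finsupp.equivFunOnFinite.symm fun i => (m p i + M).toNat
  have hUc : ∀ p, U p * E0 = (c p : G k σ) * ∏ i, e i ^ m' p i := by
    intro p
    have h1 : ∏ i, e i ^ m' p i = (∏ i, e i ^ m p i) * E0 := by
      rw [hE0, ← Finset.prod_mul_distrib]
      refine Finset.prod_congr rfl fun i _ => ?_
      have h2 : (m' p i : ℤ) = m p i + M := Int.toNat_of_nonneg (hM p i)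
      rw [← zpow_natCast (e i) (m' p i), h2, zpow_add₀ (he0 i), zpow_natCast]
    have h3 : ∏ i, e i ^ m p i ≠ 0 := Finset.prod_ne_zero_iff.2 fun i _ => zpow_ne_zero _ (he0 i)
    rw [h1]
    show U p * E0 = U p / (∏ i, e i ^ m p i) * ((∏ i, e i ^ m p i) * E0)
    field_simp
  -- the polynomials
  let φ : Fin (n + 1) → MvPolynomial (Fin s) (FF k σ) := fun i =>
    ∑ j, MvPolynomial.monomial (m' (i, j)) (A i j * c (i, j))
  have hφ : ∀ i, evg e (φ i) = E0 * X i := by
    intro i
    show evg e (∑ j, MvPolynomial.monomial (m' (i, j)) (A i j * c (i, j))) = _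
    rw [map_sum, hXs, Finset.mul_sum]
    refine Finset.sum_congr rfl fun j _ => ?_
    rw [evg_monomial, MulMemClass.coe_mul, mul_assoc, ← hUc]
    ring
  have hev := fun (g : MvPolynomial (Fin (n + 1)) k) (d : ℕ) (hg : g.IsHomogeneous d) =>
    evg_κ0 e φ E0 x hφ g d hg
  have hinj := evg_inj hS e heS hind
  -- weights
  obtain ⟨l, hl⟩ := exists_weights (Finset.univ.biUnion fun i => (φ i).support)
  set D : Finset (Fin s →₀ ℕ) := Finset.univ.biUnion fun i => (φ i).support with hD
  have hφD : ∀ i, (φ i).support ⊆ D := fun i =>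
    Finset.subset_biUnion_of_mem (fun i => (φ i).support) (Finset.mem_univ i)
  refine ⟨s, e, E0, φ, l, hE00, hφ, (injective_iff_map_eq_zero _).2 fun p hp => hinj p hp, ?_, ?_⟩
  · -- the boundary
    intro L _ ρ hρ t ht
    by_contra hno
    push Not at hno
    choose dF hdF using hF
    let f : Fin w → MvPolynomial (Fin s) (FF k σ) := fun j => (F j).eval₂ (κ0 k σ s) φ
    choose jt hjt using hFx
    obtain ⟨j1, -, hj1⟩ := const_of_finite (σ := σ) jt Set.univ Set.finite_univ
      (Eventually.of_forall fun _ => Set.mem_univ _)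
    have hf1 : f j1 ≠ 0 := by
      intro h0
      have h1 := hev (F j1) (dF j1) (hdF j1)
      have h2 : evg e (f j1) = 0 := by rw [h0, map_zero]
      rw [show (F j1).eval₂ (κ0 k σ s) φ = f j1 from rfl, h2] at h1
      have h3 := (mul_eq_zero.1 h1.symm).resolve_left (pow_ne_zero _ hE00)
      have h4 : gm σ (fun t => (F j1).eval (fun i => x i t)) ≠ 0 := by
        rw [gm_ne]
        filter_upwards [hj1] with t ht
        rw [← ht]
        exact hjt t
      exact h4 h3
    obtain ⟨q, hq, hqm⟩ := exists_factor l ρ hρ t ht f j1 hf1 hno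
    choose y hy using hq
    apply evg_nonunit hS e heS hind q hqm
    have hq0 : q ≠ 0 := by
      rintro rfl
      exact hqm 0 0 (by rw [map_zero])
    have hQ0 : evg e q ≠ 0 := fun h0 => hq0 (hinj q h0)
    -- the coefficients of the cofactors
    let κ := Σ j : Fin w, {z // z ∈ (y j).support}
    let z : κ → G k σ := fun p => (((y p.1).coeff p.2.1 : FF k σ) : G k σ)
    have hz : Sm σ fun t => ∑ p, logHeight₁ (rep (z p) t) :=
      Sm.sum _ fun p _ => ((y p.1).coeff p.2.1).2
    refine (hFs.add hz).mono ?_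
    have h1 : ∀ᶠ t in (σ.𝒰 : Filter ℕ), ∀ j, rep E0 t ^ dF j * (F j).eval (fun i => x i t) =
        rep (evg e q) t * rep (evg e (y j)) t := by
      rw [Filter.eventually_all]
      intro j
      have h2 : gm σ (fun t => rep E0 t ^ dF j * (F j).eval (fun i => x i t)) =
          gm σ (fun t => rep (evg e q) t * rep (evg e (y j)) t) := by
        have h3 : (fun t => rep E0 t ^ dF j * (F j).eval (fun i => x i t)) =
            (rep E0) ^ dF j * (fun t => (F j).eval (fun i => x i t)) := rfl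
        have h4 : (fun t => rep (evg e q) t * rep (evg e (y j)) t) =
            rep (evg e q) * rep (evg e (y j)) := rfl
        rw [h3, h4, map_mul, map_mul, map_pow, gm_rep, gm_rep, gm_rep, ← hev _ _ (hdF j),
          ← map_mul, ← hy j]
      exact (gm_eq _ _).1 h2
    have h2 : ∀ᶠ t in (σ.𝒰 : Filter ℕ), ∀ j, rep (evg e (y j)) t =
        ∑ mm : (y j).support, rep (z ⟨j, mm⟩) t * rep (∏ i, e i ^ mm.1 i) t := by
      rw [Filter.eventually_all]
      intro j
      have h3 : gm σ (rep (evg e (y j))) = gm σ (fun t =>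
          ∑ mm : (y j).support, rep (z ⟨j, mm⟩) t * rep (∏ i, e i ^ mm.1 i) t) := by
        rw [gm_rep, evg_eq]
        have h4 : (fun t => ∑ mm : (y j).support, rep (z ⟨j, mm⟩) t *
            rep (∏ i, e i ^ mm.1 i) t) =
            ∑ mm : (y j).support, rep (z ⟨j, mm⟩) * rep (∏ i, e i ^ mm.1 i) := by
          funext t
          rw [Finset.sum_apply]
          rfl
        rw [h4, map_sum]
        refine Finset.sum_congr rfl fun mm _ => ?_
        rw [map_mul, gm_rep, gm_rep]
      exact (gm_eq _ _).1 h3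
    have h3 : ∀ᶠ t in (σ.𝒰 : Filter ℕ), ∀ j, ∀ mm : (y j).support,
        IsSU S (rep (∏ i, e i ^ mm.1 i) t) := by
      rw [Filter.eventually_all]
      intro j
      rw [Filter.eventually_all]
      intro mm
      exact SU.prod _ _ fun i _ => (heS i).pow _
    filter_upwards [h1, h2, h3, rep_ne _ hQ0, hE0S] with t e1 e2 e3 e4 e5
    unfold ns lv
    rw [prod_formula S hS _ e4]
    have e6 : ho S (fun j => (F j).eval (fun i => x i t)) ≤
        ho S (fun _ : Unit => rep (evg e q) t) + ho S (c1 fun p => rep (z p) t) := by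
      refine ho_mul_le S _ ?_ _ (ne_of_coord (i := ()) e4) _ (ne_of_one _ none rfl) ?_
      · exact ne_of_coord (i := jt t) (hjt t)
      · intro v hv
        refine nm_le _ (mul_nonneg (nm_nonneg _ _) (nm_nonneg _ _)) fun j => ?_
        rw [nm_unit]
        have e7 : fv v ((F j).eval (fun i => x i t)) =
            fv v (rep (evg e q) t) * fv v (rep (evg e (y j)) t) := by
          rw [← map_mul, ← e1 j, map_mul, map_pow, e5.2 v hv, one_pow, one_mul]
        rw [e7]
        refine mul_le_mul_of_nonneg_left ?_ ((fv v).nonneg _)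
        rw [e2 j]
        exact fv_sum_le _ _ (e3 j) v hv _ fun mm => ⟨⟨j, mm⟩, rfl⟩
    have e8 : ho S (c1 fun p => rep (z p) t) ≤ ∑ p, logHeight₁ (rep (z p) t) :=
      (ho_le_height S hS _ none rfl).trans (logHeight_c1 _)
    linarith
  · -- the curve is not constant
    intro hcurve'
    have hx0 : ∃ i0, X i0 ≠ 0 := by
      by_contra h0
      push Not at h0
      have h1 : ∀ᶠ t in (σ.𝒰 : Filter ℕ), ∀ i, x i t = 0 := by
        rw [Filter.eventually_all]
        intro i
        have h2 : gm σ (x i) = gm σ 0 := by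
          rw [map_zero]
          exact h0 i
        exact (gm_eq _ _).1 h2
      obtain ⟨t, h2, h3⟩ := (h1.and (L_pos (σ := σ))).exists
      rw [hL t] at h3
      have h4 : (fun i => x i t) = 0 := funext h2
      rw [h4, logHeight_zero] at h3
      exact lt_irrefl _ h3
    obtain ⟨i0, hi0⟩ := hx0
    have hφ0 : φ i0 ≠ 0 := by
      intro h0
      have h1 := hφ i0
      rw [h0, map_zero] at h1
      exact mul_ne_zero hE00 hi0 h1.symm
    have hcurve : ∀ j, Th l (φ i0) * Polynomial.C (φ j) = Th l (φ j) * Polynomial.C (φ i0) :=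
      fun j => hcurve' i0 j
    have hprop := const_curve l D hl φ hφD i0 hφ0 hcurve
    choose cc hcc using hprop
    have hXc : ∀ j, X j = (cc j : G k σ) * X i0 := by
      intro j
      have h1 := hφ j
      rw [hcc j, map_mul, evg_C, hφ i0] at h1
      have h2 : E0 * X j = E0 * ((cc j : G k σ) * X i0) := by
        rw [← h1]
        ring
      exact mul_left_cancel₀ hE00 h2
    have h1 : ∀ᶠ t in (σ.𝒰 : Filter ℕ), ∀ j, x j t = rep (cc j : G k σ) t * x i0 t := by
      rw [Filter.eventually_all]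
      intro j
      have h2 : gm σ (x j) = gm σ (rep (cc j : G k σ) * x i0) := by
        rw [map_mul, gm_rep]
        exact hXc j
      exact (gm_eq _ _).1 h2
    have h2 : ∀ᶠ t in (σ.𝒰 : Filter ℕ), x i0 t ≠ 0 := (gm_ne _).1 hi0
    have h3 : Sm σ fun t => ∑ j, logHeight₁ (rep (cc j : G k σ) t) :=
      Sm.sum _ fun j _ => (cc j).2
    obtain ⟨t, e1, e2, e3, e4⟩ := (h1.and (h2.and ((h3 (1 / 2) (by norm_num)).and
      (L_pos (σ := σ))))).exists
    have e5 : (fun i => x i t) = x i0 t • fun j => rep (cc j : G k σ) t := by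
      funext j
      rw [e1 j, Pi.smul_apply, smul_eq_mul, mul_comm]
    have e6 : logHeight (fun i => x i t) = logHeight fun j => rep (cc j : G k σ) t := by
      rw [e5, logHeight_smul_eq_logHeight _ e2]
    have e7 := logHeight_le_sum fun j => rep (cc j : G k σ) t
    have e8 := hL t
    rw [e6] at e8
    linarith

end Pool.Agent.D0H85.SQ
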