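import Pool.Agent.D0H85.SQ.NotLgt

/-!
Families of curves over arbitrary fields.
-/

set_option autoImplicit false
set_option linter.unusedSectionVars false

open FF Pool.Agent.W602.GT Pool.Agent.W603.LV MvPolynomial
open IntermediateField hiding val

namespace Pool.Agent.D0H85.SQ

variable {k K M : Type} [Field k] [Field K] [Field M] [Algebra k K] [Algebra k M] {n r : ℕ}

theorem map_aev {R R' : Type} [CommRing R] [CommRing R'] [Algebra k R] [Algebra k R']
    (f : R →ₐ[k] R') (W : Fin (n + 1) → Polynomial R) (G : MvPolynomial (Fin (n + 1)) k) :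
    (aeval W G).map (f : R →+* R') = aeval (fun j => (W j).map (f : R →+* R')) G := by
  have h4 := MvPolynomial.comp_aeval_apply (f := W) (Polynomial.mapAlgHom f) G
  exact h4

/-- **Families of curves over arbitrary fields.** -/
theorem not_lgt_fam' [CharZero k] {w : ℕ} (hdim : Algebra.trdeg k K = w)
    {y : Fin (n + 1) → K} (hy : y ≠ 0) (hgen : coords k y = ⊤)
    (F : Fin r → MvPolynomial (Fin (n + 1)) k) (d : Fin r → ℕ) (hF : ∀ j, (F j).IsHomogeneous (d j))
    (W : Fin (n + 1) → Polynomial M)
    (rel : ∀ G : MvPolynomial (Fin (n + 1)) k, IsForm G →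
      (W602.GT.val y G = 0 ↔ (aeval W G : Polynomial M) = 0))
    (bd : ∃ (a : Fin r → Polynomial M) (c : M) (l : ℕ), c ≠ 0 ∧
      ∑ j, a j * aeval W (F j) = Polynomial.C c * Polynomial.X ^ l)
    (hnc : ∃ i j, W i * Polynomial.C ((W j).eval 1) ≠ W j * Polynomial.C ((W i).eval 1)) :
    ¬ LogGeneralType k K w (NoCentre F d y) := by
  classical
  obtain ⟨a, c, l, hc, hsum⟩ := bd
  let T : Finset M := (Finset.univ.biUnion fun j => (W j).support.image fun n => (W j).coeff n) ∪
    (Finset.univ.biUnion fun j => (a j).support.image fun n => (a j).coeff n) ∪ {c}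
  let M0 : IntermediateField k M := IntermediateField.adjoin k (T : Set M)
  have hess : Algebra.EssFiniteType k M0 := IntermediateField.essFiniteType_iff.2 ⟨T, rfl⟩
  have hlt := trdeg_lt_aleph0 k M0
  obtain ⟨m, hm⟩ := Cardinal.lt_aleph0.1 hlt
  have hTM : ∀ z ∈ T, z ∈ M0 := fun z hz => IntermediateField.subset_adjoin k _ hz
  have hlift : ∀ p : Polynomial M, (∀ i, p.coeff i ≠ 0 → p.coeff i ∈ M0) →
      ∃ q : Polynomial M0, q.map (M0.val : M0 →+* M) = p := by
    intro p hp
    have h1 : p ∈ Polynomial.lifts (M0.val : M0 →+* M) := by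
      rw [Polynomial.lifts_iff_coeff_lifts]
      intro i
      by_cases hi : p.coeff i = 0
      · rw [hi]
        exact ⟨0, map_zero _⟩
      · exact ⟨⟨_, hp i hi⟩, rfl⟩
    exact (Polynomial.mem_lifts _).1 h1
  have hW : ∀ j, ∃ q : Polynomial M0, q.map (M0.val : M0 →+* M) = W j := by
    intro j
    refine hlift _ fun i hi => hTM _ ?_
    simp only [T, Finset.mem_union, Finset.mem_biUnion, Finset.mem_univ, true_and,
      Finset.mem_image]
    exact Or.inl (Or.inl ⟨j, i, Polynomial.mem_support_iff.2 hi, rfl⟩)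
  have ha : ∀ j, ∃ q : Polynomial M0, q.map (M0.val : M0 →+* M) = a j := by
    intro j
    refine hlift _ fun i hi => hTM _ ?_
    simp only [T, Finset.mem_union, Finset.mem_biUnion, Finset.mem_univ, true_and,
      Finset.mem_image]
    exact Or.inl (Or.inr ⟨j, i, Polynomial.mem_support_iff.2 hi, rfl⟩)
  have hcM : c ∈ M0 := hTM c (by
    exact Finset.mem_union_right _ (Finset.mem_singleton_self c))
  choose W' hW' using hW
  choose a' ha' using ha
  have hMinj : Function.Injective (M0.val : M0 →+* M) := M0.val.toRingHom.injective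
  have hmap : ∀ G : MvPolynomial (Fin (n + 1)) k,
      (aeval W' G).map (M0.val : M0 →+* M) = aeval W G := by
    intro G
    rw [map_aev]
    congr 1
    congr 1
    funext j
    exact hW' j
  have hev : ∀ j, (M0.val : M0 →+* M) ((W' j).eval 1) = (W j).eval 1 := by
    intro j
    rw [← hW' j, Polynomial.eval_map, Polynomial.eval₂_at_one]
  refine not_lgt_fam (M := M0) hdim hm hy hgen F d hF W' ?_ ?_ ?_
  · intro G hG
    rw [rel G hG, ← hmap, Polynomial.map_eq_zero_iff hMinj]
  · refine ⟨a', ⟨c, hcM⟩, l, ?_, ?_⟩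
    · intro h0
      exact hc (congrArg Subtype.val h0)
    · apply Polynomial.map_injective _ hMinj
      rw [Polynomial.map_sum, Polynomial.map_mul, Polynomial.map_C, Polynomial.map_pow,
        Polynomial.map_X]
      refine Eq.trans ?_ hsum
      refine Finset.sum_congr rfl fun j _ => ?_
      rw [Polynomial.map_mul, hmap, ha']
  · obtain ⟨i, j, hij⟩ := hnc
    refine ⟨i, j, fun h => hij ?_⟩
    have h1 := congrArg (Polynomial.map (M0.val : M0 →+* M)) h
    rw [Polynomial.map_mul, Polynomial.map_mul, Polynomial.map_C, Polynomial.map_C, hW', hW', hev,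
      hev] at h1
    exact h1

/-- polynomials without a common root different from zero -/
theorem exists_comb (p : Fin r → Polynomial M)
    (h : ∀ t : AlgebraicClosure M, t ≠ 0 → ∃ j, Polynomial.aeval t (p j) ≠ 0) :
    ∃ (a : Fin r → Polynomial M) (c : M) (l : ℕ), c ≠ 0 ∧
      ∑ j, a j * p j = Polynomial.C c * Polynomial.X ^ l := by
  classical
  let I : Ideal (Polynomial M) := Ideal.span (Set.range p)
  let g := Submodule.IsPrincipal.generator I
  have hg : I = Ideal.span {g} := (Ideal.span_singleton_generator I).symm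
  have hdvd : ∀ j, g ∣ p j := by
    intro j
    have h1 : p j ∈ I := Ideal.subset_span ⟨j, rfl⟩
    rw [hg, Ideal.mem_span_singleton] at h1
    exact h1
  have hg0 : g ≠ 0 := by
    intro h0
    obtain ⟨j, hj⟩ := h 1 one_ne_zero
    have h1 := hdvd j
    rw [h0, zero_dvd_iff] at h1
    rw [h1, map_zero] at hj
    exact hj rfl
  obtain ⟨q, hq, hqX⟩ := Polynomial.exists_eq_pow_rootMultiplicity_mul_and_not_dvd g hg0 0
  rw [map_zero, sub_zero] at hq hqX
  set l := Polynomial.rootMultiplicity 0 g with hl
  have hq0 : q.coeff 0 ≠ 0 := by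
    intro h0
    exact hqX (Polynomial.X_dvd_iff.2 h0)
  have hdeg : q.natDegree = 0 := by
    by_contra hdeg
    have h1 : (q.map (algebraMap M (AlgebraicClosure M))).degree ≠ 0 := by
      rw [Polynomial.degree_map]
      intro h2
      exact hdeg (Polynomial.natDegree_eq_of_degree_eq_some h2)
    obtain ⟨t, ht⟩ := IsAlgClosed.exists_root _ h1
    have ht' : Polynomial.aeval t q = 0 := by
      rw [Polynomial.IsRoot.def, Polynomial.eval_map, ← Polynomial.aeval_def] at ht
      exact ht
    have ht0 : t ≠ 0 := by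
      rintro rfl
      rw [Polynomial.aeval_def, Polynomial.eval₂_at_zero, map_eq_zero] at ht'
      exact hq0 ht'
    obtain ⟨j, hj⟩ := h t ht0
    apply hj
    obtain ⟨b, hb⟩ := hdvd j
    rw [hb, hq, map_mul, map_mul, ht', mul_zero, zero_mul]
  obtain ⟨c, hc⟩ := Polynomial.natDegree_eq_zero.1 hdeg
  have hgI : g ∈ I := by rw [hg]; exact Ideal.mem_span_singleton_self g
  obtain ⟨a, ha⟩ := (Ideal.mem_span_range_iff_exists_fun).1 hgI
  refine ⟨a, c, l, ?_, ?_⟩
  · rintro rfl
    rw [← hc, map_zero, Polynomial.coeff_zero] at hq0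
    exact hq0 rfl
  · rw [ha, hq, ← hc, mul_comm]

end Pool.Agent.D0H85.SQ
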