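import Pool.Agent.TH143.GT.Sec

/-!
Varieties which are covered by a family of images of the punctured line are not of log general type:
the case of a boundary of arbitrary codimension.
-/

set_option autoImplicit false
set_option linter.unusedSectionVars false

open FF Pool.Agent.W602.GT Pool.Agent.W603.LV MvPolynomial
open IntermediateField hiding val

namespace Pool.Agent.D0H85.SQ

open Pool.Agent.TH143.GT

/-- The centre of the place `P` on the closure of the subvariety with generic point `y` is a common
zero of the forms `F j` of degrees `d j`. -/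
def NoCentre {k K : Type} [Field k] [Field K] [Algebra k K] {n r : ℕ}
    (F : Fin r → MvPolynomial (Fin (n + 1)) k) (d : Fin r → ℕ) (y : Fin (n + 1) → K)
    (P : Place k K) : Prop :=
  ∃ i, y i ≠ 0 ∧ ∀ j, aeval y (F j) = 0 ∨ d j * P.ord (y i) < P.ord (aeval y (F j))

variable {k K M : Type} [Field k] [Field K] [Field M] [Algebra k K] [Algebra k M] {n r : ℕ}

theorem poly_const [CharZero M] {a b : Polynomial M}
    (h : Polynomial.derivative a * b = a * Polynomial.derivative b) (s t : M) :
    a.eval s * b.eval t = a.eval t * b.eval s := by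
  classical
  by_cases hb : b = 0
  · rw [hb, Polynomial.eval_zero, Polynomial.eval_zero, mul_zero, mul_zero]
  set g := gcd a b with hg
  have hg0 : g ≠ 0 := gcd_ne_zero_of_right hb
  obtain ⟨a0, ha0⟩ : g ∣ a := gcd_dvd_left a b
  obtain ⟨b0, hb0⟩ : g ∣ b := gcd_dvd_right a b
  have hc : IsCoprime a0 b0 := by
    have h1 := isCoprime_div_gcd_div_gcd (p := a) hb
    rw [← hg] at h1
    rwa [ha0, hb0, mul_div_cancel_left₀ _ hg0, mul_div_cancel_left₀ _ hg0] at h1
  have h1 : Polynomial.wronskian a0 b0 = 0 := by
    have h2 : g ^ 2 * Polynomial.wronskian a0 b0 = 0 := by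
      unfold Polynomial.wronskian
      rw [ha0, hb0, Polynomial.derivative_mul, Polynomial.derivative_mul] at h
      linear_combination -h
    exact (mul_eq_zero.1 h2).resolve_left (pow_ne_zero _ hg0)
  rw [hc.wronskian_eq_zero_iff] at h1
  obtain ⟨α, hα⟩ := Polynomial.natDegree_eq_zero.1
    (Polynomial.derivative_eq_zero.1 h1.1)
  obtain ⟨β, hβ⟩ := Polynomial.natDegree_eq_zero.1
    (Polynomial.derivative_eq_zero.1 h1.2)
  rw [ha0, hb0, ← hα, ← hβ]
  simp only [Polynomial.eval_mul, Polynomial.eval_C]
  ring

/-- **Families of curves.** -/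
theorem not_lgt_fam [CharZero k] {w m : ℕ} (hdim : Algebra.trdeg k K = w)
    (hm : Algebra.trdeg k M = m) {y : Fin (n + 1) → K} (hy : y ≠ 0) (hgen : coords k y = ⊤)
    (F : Fin r → MvPolynomial (Fin (n + 1)) k) (d : Fin r → ℕ) (hF : ∀ j, (F j).IsHomogeneous (d j))
    (W : Fin (n + 1) → Polynomial M)
    (rel : ∀ G : MvPolynomial (Fin (n + 1)) k, IsForm G →
      (W602.GT.val y G = 0 ↔ (aeval W G : Polynomial M) = 0))
    (bd : ∃ (a : Fin r → Polynomial M) (c : M) (l : ℕ), c ≠ 0 ∧
      ∑ j, a j * aeval W (F j) = Polynomial.C c * Polynomial.X ^ l)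
    (hnc : ∃ i j, W i * Polynomial.C ((W j).eval 1) ≠ W j * Polynomial.C ((W i).eval 1)) :
    ¬ LogGeneralType k K w (NoCentre F d y) := by
  classical
  rintro ⟨-, N, hN, ω, hpl, hlog, hreg, D, hD0, hind⟩
  have hchar : CharZero M := charZero_of_injective_algebraMap (algebraMap k M).injective
  have hFam : Fam y (1 : MvPolynomial (Fin (n + 1)) k) W 0 := ⟨rel, 1, one_ne_zero, by simp⟩
  obtain ⟨φ, hφ⟩ := hFam.emb hy hgen
  obtain ⟨δ, hδ, htop⟩ := exists_delta k M
  have hess : Algebra.EssFiniteType k K := ess_of_coords hgen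
  let _ : Algebra K (RatFunc M) := φ.toRingHom.toAlgebra
  have t1 : IsScalarTower k K (RatFunc M) := IsScalarTower.of_algebraMap_eq fun c => by
    change _ = φ (algebraMap k K c)
    rw [φ.commutes]
  have hL : Algebra.trdeg k (RatFunc M) = (m + 1 : ℕ) := trdeg_ratFunc k M hm
  have hX0 : (RatFunc.X : RatFunc M) ≠ 0 := RatFunc.X_ne_zero
  have hX : δ (RatFunc.X : RatFunc M) = RatFunc.X := by
    have := hδ Polynomial.X
    rwa [RatFunc.algebraMap_X, Polynomial.derivative_X, map_one, mul_one] at this
  have hcM : ∀ c : M, δ (algebraMap M (RatFunc M) c) = 0 := by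
    intro c
    have := hδ (Polynomial.C c)
    rw [Polynomial.derivative_C, map_zero, mul_zero, RatFunc.algebraMap_C] at this
    exact this
  obtain ⟨y0, hy0⟩ : ∃ y0 : Fin w → K, IsTranscendenceBasis k y0 := by
    obtain ⟨B, hB⟩ := exists_isTranscendenceBasis k K
    have hcard := hB.cardinalMk_eq_trdeg
    rw [hdim] at hcard
    have hfin : Finite B := by
      rw [← Cardinal.lt_aleph0_iff_finite, hcard]
      exact Cardinal.natCast_lt_aleph0
    obtain ⟨m', ⟨e⟩⟩ := Finite.exists_equiv_fin B
    obtain rfl : m' = w := by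
      rw [Cardinal.mk_congr e, Cardinal.mk_fin] at hcard
      exact_mod_cast hcard
    exact ⟨fun i => (e.symm i : K), hB.comp_equiv e.symm⟩
  choose E hE using fun i => exists_der y0 hy0 (fun j => if i = j then (1 : K) else 0)
  have hD : Dual y0 E := ⟨hy0, hE⟩
  have hbd : ∀ P : Place k (RatFunc M), (∀ c : RatFunc M, δ c = 0 → c ≠ 0 → P.ord c = 0) →
      P.ord (RatFunc.X : RatFunc M) = 0 →
      ∀ (v : Place k K) e, Over P v e → ¬ NoCentre F d y v := by
    rintro P hP hPX v e hv ⟨i, hi, hall⟩
    have hPM : ∀ c : M, c ≠ 0 → P.ord (algebraMap M (RatFunc M) c) = 0 := fun c hc =>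
      hP _ (hcM c) (by rwa [Ne, map_eq_zero])
    have hWi : rf (W i) ≠ 0 := by
      rw [Ne, rf_zero]
      exact (hFam.ne i).1 hi
    have hregp : ∀ p : Polynomial M, P.Reg (rf p) := by
      intro p
      induction p using Polynomial.induction_on' with
      | add p q hp hq =>
        unfold rf at hp hq ⊢
        rw [map_add]
        exact P.reg_add hp hq
      | monomial n a =>
        unfold rf
        rw [← Polynomial.C_mul_X_pow_eq_monomial, map_mul, map_pow, RatFunc.algebraMap_X,
          RatFunc.algebraMap_C]
        refine P.reg_mul ?_ ?_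
        · by_cases ha : a = 0
          · left
            rw [ha, map_zero]
          · right
            exact (hPM a ha).ge
        · right
          rw [P.ord_pow, hPX, mul_zero]
    obtain ⟨a, c, l, hc, hsum⟩ := bd
    obtain ⟨j, hj0, hj⟩ : ∃ j, rf (aeval W (F j) : Polynomial M) ≠ 0 ∧
        P.ord (rf (aeval W (F j) : Polynomial M)) = 0 := by
      by_contra hcon
      push Not at hcon
      -- all the terms have positive order
      have hpos : ∀ T : Finset (Fin r), rf (∑ j ∈ T, a j * aeval W (F j)) = 0 ∨
          0 < P.ord (rf (∑ j ∈ T, a j * aeval W (F j))) := by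
        intro T
        induction T using Finset.induction_on with
        | empty => left; rw [Finset.sum_empty, rf_zero]
        | insert j T hjT ih =>
          rw [Finset.sum_insert hjT]
          have h1 : rf (a j * aeval W (F j)) = 0 ∨ 0 < P.ord (rf (a j * aeval W (F j))) := by
            by_cases h0 : rf (aeval W (F j) : Polynomial M) = 0
            · left
              rw [rf_mul, h0, mul_zero]
            · by_cases h2 : rf (a j) = 0
              · left
                rw [rf_mul, h2, zero_mul]
              · right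
                rw [rf_mul, P.ord_mul h2 h0]
                have h3 := (P.reg_iff h2).1 (hregp (a j))
                have h4 := (P.reg_iff h0).1 (hregp (aeval W (F j)))
                have h5 := hcon j h0
                omega
          have hadd : ∀ p q : Polynomial M, rf (p + q) = rf p + rf q := fun p q => map_add _ _ _
          rw [hadd]
          rcases h1 with h1 | h1
          · rw [h1, zero_add]
            exact ih
          · rcases ih with h2 | h2
            · rw [h2, add_zero]
              exact Or.inr h1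
            · by_cases h3 : rf (a j * aeval W (F j)) + rf (∑ j ∈ T, a j * aeval W (F j)) = 0
              · exact Or.inl h3
              · right
                have h4 : rf (a j * aeval W (F j)) ≠ 0 := by
                  intro h0
                  rw [h0, P.ord_zero] at h1
                  exact lt_irrefl _ h1
                have h5 : rf (∑ j ∈ T, a j * aeval W (F j)) ≠ 0 := by
                  intro h0
                  rw [h0, P.ord_zero] at h2
                  exact lt_irrefl _ h2
                exact lt_of_lt_of_le (lt_min h1 h2) (P.ord_add h4 h5 h3)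
      have h1 := hpos Finset.univ
      have h2 : rf (∑ j, a j * aeval W (F j)) = algebraMap M (RatFunc M) c * RatFunc.X ^ l := by
        rw [hsum]
        unfold rf
        rw [map_mul, map_pow, RatFunc.algebraMap_X, RatFunc.algebraMap_C]
        rfl
      have hcne : algebraMap M (RatFunc M) c ≠ 0 := by rwa [Ne, map_eq_zero]
      rw [h2] at h1
      rcases h1 with h1 | h1
      · exact mul_ne_zero hcne (pow_ne_zero _ hX0) h1
      · rw [P.ord_mul hcne (pow_ne_zero _ hX0), hPM c hc, P.ord_pow, hPX, mul_zero, add_zero] at h1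
        exact lt_irrefl _ h1
    have hFj : W602.GT.val y (F j) ≠ 0 := by
      intro h0
      apply hj0
      rw [rf_zero, ← rel (F j) ⟨d j, hF j⟩]
      exact h0
    have hlt := (hall j).resolve_left hFj
    have hvi : W602.GT.val y (X i ^ d j : MvPolynomial (Fin (n + 1)) k) = y i ^ d j := by
      unfold W602.GT.val
      rw [map_pow, aeval_X]
    have hXi : (X i ^ d j : MvPolynomial (Fin (n + 1)) k).IsHomogeneous (d j) := by
      have := (isHomogeneous_X k i).pow (d j)
      rwa [one_mul] at this
    have h1 := hφ (d j) (F j) (X i ^ d j) (hF j) hXi (by rw [hvi]; exact pow_ne_zero _ hi)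
    rw [map_pow, aeval_X, rf_pow, hvi] at h1
    have h2 := hv.2 (W602.GT.val y (F j) / y i ^ d j)
    change P.ord (φ _) = _ at h2
    rw [h1, P.ord_div hj0 (pow_ne_zero _ hWi), hj, P.ord_pow,
      v.ord_div hFj (pow_ne_zero _ hi), v.ord_pow] at h2
    have h3 : 0 ≤ P.ord (rf (W i)) := (P.reg_iff hWi).1 (hregp _)
    have h4 : 0 < (e : ℤ) * (v.ord (W602.GT.val y (F j)) - d j * v.ord (y i)) :=
      mul_pos (by exact_mod_cast hv.1) (by
        have h6 : (d j : ℤ) * v.ord (y i) < v.ord (W602.GT.val y (F j)) := hlt
        linarith)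
    rw [← h2] at h4
    have h5 : 0 ≤ (d j : ℤ) * P.ord (rf (W i)) := by positivity
    linarith
  obtain ⟨θ, E', hθ, hθE⟩ := exists_det_form (k := k) (K := K) hdim
  have hθ' : (θ : MultilinearMap K (fun _ : Fin w => Derivation k K K) K) ≠ 0 := by
    intro h0
    apply hθ
    ext D
    exact congrFun (congrArg DFunLike.coe h0) D
  have h4 := core_const hdim hL (θ : MultilinearMap K (fun _ : Fin w => Derivation k K K) K) hθ' hN
    (J := Fin (w + 1)) (fun j => ω j E') (Bd := NoCentre F d y) (by
      intro v hv D hD' j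
      change v.Reg (ω j E' * θ D ^ N)
      rw [hθE N (ω j) (hpl j)]
      exact hlog v hv j D hD') (by
      intro v hv hB D hD' j
      change v.Reg (ω j E' * θ D ^ N)
      rw [hθE N (ω j) (hpl j)]
      exact hreg v hv hB j D hD') hD δ hX0 hX htop hbd 0
  have h5 : ∀ i : Fin w, δ (φ (ω i.succ D / ω 0 D)) = 0 := by
    intro i
    have hr : ω i.succ D / ω 0 D = ω i.succ E' / ω 0 E' := by
      rw [← hθE N (ω 0) (hpl _) D, ← hθE N (ω i.succ) (hpl _) D]
      have h6 : θ D ^ N ≠ 0 := by
        intro h7
        apply hD0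
        rw [← hθE N (ω 0) (hpl _) D, h7, mul_zero]
      rw [mul_div_mul_right _ _ h6]
    rw [hr]
    exact h4 i.succ
  have hbasis : IsTranscendenceBasis k (fun i : Fin w => ω i.succ D / ω 0 D) := by
    refine hind.isTranscendenceBasis_of_lift_trdeg_le_of_finite ?_
    rw [hdim]
    simp
  have h6 : ∀ z : K, δ (φ z) = 0 := fun z =>
    Pool.Agent.W619.TW.der_zero (δ.compAlgebraMap K) _ hbasis (fun i => h5 i) z
  obtain ⟨i, j, hij⟩ := hnc
  apply hij
  by_cases hj : W j = 0
  · rw [hj, Polynomial.eval_zero, map_zero, mul_zero, zero_mul]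
  have hyj : y j ≠ 0 := (hFam.ne j).2 hj
  have h7 := hφ 1 (X i : MvPolynomial (Fin (n + 1)) k) (X j : MvPolynomial (Fin (n + 1)) k)
    (isHomogeneous_X k i) (isHomogeneous_X k j) (by
    unfold W602.GT.val
    rwa [aeval_X])
  have h8 := h6 (W602.GT.val y (X i : MvPolynomial (Fin (n + 1)) k) /
    W602.GT.val y (X j : MvPolynomial (Fin (n + 1)) k))
  rw [h7, aeval_X, aeval_X] at h8
  have h9 := deriv_of_delta hδ hj h8
  have hinf : Infinite M := inferInstance
  apply Polynomial.funext
  intro s
  rw [Polynomial.eval_mul, Polynomial.eval_mul, Polynomial.eval_C, Polynomial.eval_C,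
    poly_const h9 s 1, mul_comm]

end Pool.Agent.D0H85.SQ
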